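import Mathlib
import Pool.Agent.L5helper27.STD.Final

/-!
# Divisibility of Poincare polynomials does not imply divisibility of Solomon-Terao Hilbert series

The arrangement consists of the ten hyperplanes `x`, `y`, `z`, `w`, `x - z`, `x + z`, `z - w`,
`x - y`, `y + w`, `x - y + z - w` of `K^4`, the hyperplane `H` is `x = z`, and
`η = x² + y² + z² + w²`. The Poincare polynomials are `(1 + 3t)(1 + 7t + 16t² + 10t³)` and
`1 + 7t + 16t² + 10t³`.
-/

set_option autoImplicit false

namespace Pool.Agent.Results.MP_1e7c4a_ag.PoincareWithoutHilbert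

open MvPolynomial Pool.Agent.R833 Pool.Agent.R833.Arr Pool.Agent.R833.HF Pool.Agent.R833.ST
open Pool.Agent.L5helper27.STD
open Pool.Agent.Results.MP_1e7c4a_ag.HilbertWithoutPoincare (IsGeneric IsHilbertSeries
  IsRestriction restrictPoly)

section

variable (K : Type) [Field K] [CharZero K]

/-- the parametrization `(x, y, w) ↦ (x, y, x, w)` of the hyperplane `x = z` -/
def ee : (Fin 3 → K) →ₗ[K] (Fin 4 → K) where
  toFun v := ![v 0, v 1, v 0, v 2]
  map_add' v w := by
    funext j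
    fin_cases j <;> simp
  map_smul' c v := by
    funext j
    fin_cases j <;> simp

omit [CharZero K] in
lemma ee_apply (v : Fin 3 → K) : ee K v = ![v 0, v 1, v 0, v 2] := rfl

/-- the hyperplane of the restriction cut out by number `i` -/
def sg : Fin 10 → Fin 7 := ![0, 1, 0, 2, 0, 0, 3, 4, 5, 6]

/-- the factor -/
def cf : Fin 10 → ℤ := ![1, 1, 1, 1, 0, 2, 1, 1, 1, 1]

lemma cf_spec : ∀ i, FlatsA.a i 0 + FlatsA.a i 2 = cf i * FlatsB.a (sg i) 0 ∧
    FlatsA.a i 1 = cf i * FlatsB.a (sg i) 1 ∧ FlatsA.a i 3 = cf i * FlatsB.a (sg i) 2 := by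
  decide +kernel

lemma cf_ne : ∀ i, i ≠ 4 → cf i ≠ 0 := by decide

lemma sg_surj : ∀ j, ∃ i, i ≠ 4 ∧ sg i = j := by decide

lemma comap_eq {i : Fin 10} (hi : i ≠ 4) :
    (hyperplane (AA K i)).comap (ee K) = hyperplane (BB K (sg i)) := by
  ext v
  rw [Submodule.mem_comap, mem_hyperplane, mem_hyperplane, Fin.sum_univ_four,
    Fin.sum_univ_three, ee_apply]
  obtain ⟨h0, h1, h2⟩ := cf_spec i
  have h0' : (FlatsA.a i 0 : K) + FlatsA.a i 2 = cf i * FlatsB.a (sg i) 0 := by exact_mod_cast h0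
  have h1' : (FlatsA.a i 1 : K) = cf i * FlatsB.a (sg i) 1 := by exact_mod_cast h1
  have h2' : (FlatsA.a i 3 : K) = cf i * FlatsB.a (sg i) 2 := by exact_mod_cast h2
  have hc : (cf i : K) ≠ 0 := by exact_mod_cast cf_ne i hi
  have he : (FlatsA.a i 0 : K) * v 0 + FlatsA.a i 1 * v 1 + FlatsA.a i 2 * v 0 +
      FlatsA.a i 3 * v 2 = cf i * ((FlatsB.a (sg i) 0 : K) * v 0 + FlatsB.a (sg i) 1 * v 1 +
        FlatsB.a (sg i) 2 * v 2) := by
    linear_combination v 0 * h0' + v 1 * h1' + v 2 * h2'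
  change (FlatsA.a i 0 : K) * v 0 + FlatsA.a i 1 * v 1 + FlatsA.a i 2 * v 0 +
      FlatsA.a i 3 * v 2 = 0 ↔ (FlatsB.a (sg i) 0 : K) * v 0 + FlatsB.a (sg i) 1 * v 1 +
        FlatsB.a (sg i) 2 * v 2 = 0
  rw [he, mul_eq_zero]
  constructor
  · intro h
    exact h.resolve_left hc
  · exact fun h => Or.inr h

lemma restriction : IsRestriction (AA K) 4 (ee K) (BB K) where
  injective := by
    intro v w h
    rw [ee_apply, ee_apply] at h
    funext j
    fin_cases j
    · exact congrFun h 0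
    · exact congrFun h 1
    · exact congrFun h 3
  range_eq := by
    ext x
    rw [LinearMap.mem_range, mem_hyperplane, Fin.sum_univ_four]
    have e0 : AA K 4 0 = 1 := by
      change ((FlatsA.a 4 0 : ℤ) : K) = 1
      rw [show FlatsA.a 4 0 = 1 by decide]
      simp
    have e1 : AA K 4 1 = 0 := by
      change ((FlatsA.a 4 1 : ℤ) : K) = 0
      rw [show FlatsA.a 4 1 = 0 by decide]
      simp
    have e2 : AA K 4 2 = -1 := by
      change ((FlatsA.a 4 2 : ℤ) : K) = -1
      rw [show FlatsA.a 4 2 = -1 by decide]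
      simp
    have e3 : AA K 4 3 = 0 := by
      change ((FlatsA.a 4 3 : ℤ) : K) = 0
      rw [show FlatsA.a 4 3 = 0 by decide]
      simp
    rw [e0, e1, e2, e3]
    constructor
    · rintro ⟨v, rfl⟩
      rw [ee_apply]
      simp
    · intro h
      refine ⟨![x 0, x 1, x 3], ?_⟩
      rw [ee_apply]
      funext j
      fin_cases j
      · rfl
      · rfl
      · change x 0 = x 2
        linear_combination h
      · rfl
  arrangement := arrB K
  planes := by
    intro W
    constructor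
    · rintro ⟨j, rfl⟩
      obtain ⟨i, hi, rfl⟩ := sg_surj j
      exact ⟨i, hi, comap_eq K hi⟩
    · rintro ⟨i, hi, rfl⟩
      exact ⟨sg i, (comap_eq K hi).symm⟩

omit [CharZero K] in
lemma restrict_eta : restrictPoly (ee K) (etaA K) = etaB K := by
  have h : ∀ j : Fin 4, (aeval (fun j => ∑ k, C (ee K (Pi.single k 1) j) * X k)
      (X j : MvPolynomial (Fin 4) K) : MvPolynomial (Fin 3) K) =
        (![X 0, X 1, X 0, X 2] : Fin 4 → MvPolynomial (Fin 3) K) j := by
    intro j
    rw [aeval_X, Fin.sum_univ_three, ee_apply, ee_apply, ee_apply]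
    fin_cases j <;> simp
  unfold restrictPoly etaA etaB diagQ
  rw [Fin.sum_univ_four, Fin.sum_univ_three]
  simp only [map_add, map_mul, map_pow, h, algHom_C, algebraMap_eq]
  simp [FlatsA.e, FlatsB.e, C2]
  ring

end

/-- Over every algebraically closed field of characteristic zero there are an arrangement `A` of
ten hyperplanes in `K^4`, a hyperplane `H` of `A` and `η ∈ U_2(A)` such that the Poincare
polynomial of `A^H` divides that of `A`, but the Hilbert series of `ST(A^H, η|_H)` does not divide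
that of `ST(A, η)`. -/
theorem result (K : Type) [Field K] [IsAlgClosed K] [CharZero K] :
    ∃ (A : Fin 10 → Fin 4 → K) (i₀ : Fin 10) (e : (Fin 3 → K) →ₗ[K] (Fin 4 → K))
      (B : Fin 7 → Fin 3 → K) (η : MvPolynomial (Fin 4) K) (hA hB pA pB : Polynomial ℚ),
      IsArrangement A ∧ IsRestriction A i₀ e B ∧ IsGeneric A 2 η ∧
      IsHilbertSeries A η hA ∧ IsHilbertSeries B (restrictPoly e η) hB ∧
      IsPoincare A pA ∧ IsPoincare B pB ∧ pB ∣ pA ∧ ¬ hB ∣ hA := by
  obtain ⟨P, hP⟩ := exists_hilbert (AA K) (etaA K) fun d hd => topA K hd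
  obtain ⟨Q, hQ⟩ := exists_hilbert (BB K) (etaB K) fun d hd => topB K hd
  refine ⟨AA K, 4, ee K, BB K, etaA K, P, Q, _, _, arrA K, restriction K, genA K, hP,
    by rw [restrict_eta]; exact hQ, FlatsA.isPoincare K, FlatsB.isPoincare K, ?_, ?_⟩
  · exact ⟨1 + 3 * Polynomial.X, by ring⟩
  · apply not_dvd
    · intro d hd
      rw [hP, topA K hd, Nat.cast_zero]
    · rw [hP, a0 K, Nat.cast_one]
    · rw [hP, a1 K]; norm_num
    · rw [hP, a2 K]; norm_num
    · rw [hP, a3 K]; norm_num
    · rw [hP]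
      have : 24 ≤ hq (stIdeal (AA K) (etaA K)) 4 := FlatsA.le4 K
      exact_mod_cast this
    · rw [hQ, b0 K, Nat.cast_one]
    · rw [hQ, b1 K]; norm_num
    · rw [hQ, b2 K]; norm_num
    · rw [hQ, b3 K]; norm_num
    · rw [hQ]
      exact_mod_cast b4 K
    · rw [hQ]
      have : 1 ≤ hq (stIdeal (BB K) (etaB K)) 7 := FlatsB.le7 K
      have h2 : hq (stIdeal (BB K) (etaB K)) 7 ≠ 0 := by omega
      exact_mod_cast h2

end Pool.Agent.Results.MP_1e7c4a_ag.PoincareWithoutHilbert
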